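import Pool.Agent.X252.CycGroup

/-!
# The chain of Demushkin groups is never 1-cyclotomic
-/

namespace Pool.Agent.Results.MP_cf27b7_al.NotCyclotomic

open Pool.Agent.X252.Cyc

/-- For every prime `p` and every `d ≥ 3` the pro-`p` group on `x_1, y_1, …, x_d, y_d` with the
relations `[x_i, y_i] = [x_{i+1}, y_{i+1}]` for `1 ≤ i ≤ d - 1` is not 1-cyclotomic. -/
theorem result : ∀ (p : ℕ) [Fact p.Prime] (d : ℕ), 3 ≤ d → ¬ Cyclotomic p (ChainGroup p d) := by
  intro p _ d hd
  exact chainGroup_not_cyclotomic hd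

end Pool.Agent.Results.MP_cf27b7_al.NotCyclotomic
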